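import Mathlib

namespace Pool.Agent.N428.TreeCounts

open SimpleGraph Finset

/-! Part 1: labelled copies versus copies -/

section labelled

variable {V W : Type*} {G : SimpleGraph V} {H : SimpleGraph W}

lemma exists_iso_of_eq {A B : G.Subgraph} (h : A = B) :
    ∃ i : A.coe ≃g B.coe, ∀ x, ((i x : V)) = (x : V) := by
  subst h
  exact ⟨Iso.refl, fun x => rfl⟩

lemma isoToSubgraph_coe (f : Copy H G) (w : W) : ((f.isoToSubgraph w : V)) = f w := rfl

lemma comp_toSubgraph (f : Copy H G) (s : H ≃g H) :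
    (f.comp s.toCopy).toSubgraph = f.toSubgraph := by
  ext a b
  · simp only [Copy.toSubgraph, Subgraph.map_verts, Set.mem_image]
    constructor
    · rintro ⟨w, hw, rfl⟩
      exact ⟨s w, by simp, rfl⟩
    · rintro ⟨w, hw, rfl⟩
      refine ⟨s.symm w, by simp, ?_⟩
      show f (s (s.symm w)) = f w
      simp
  · simp only [Copy.toSubgraph, Subgraph.map_adj, Relation.Map]
    constructor
    · rintro ⟨w, w', hw, rfl, rfl⟩
      refine ⟨s w, s w', ?_, rfl, rfl⟩
      exact (Iso.map_adj_iff s).2 hw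
    · rintro ⟨w, w', hw, rfl, rfl⟩
      refine ⟨s.symm w, s.symm w', ?_, ?_, ?_⟩
      · exact (Iso.map_adj_iff s.symm).2 hw
      · show f (s (s.symm w)) = f w
        simp
      · show f (s (s.symm w')) = f w'
        simp

lemma exists_perm_of_toSubgraph_eq (f g : Copy H G) (h : f.toSubgraph = g.toSubgraph) :
    ∃ s : H ≃g H, f = g.comp s.toCopy := by
  obtain ⟨i, hi⟩ := exists_iso_of_eq h
  refine ⟨(f.isoToSubgraph.trans i).trans g.isoToSubgraph.symm, ?_⟩
  ext w
  show f w = g (g.isoToSubgraph.symm (i (f.isoToSubgraph w)))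
  rw [← isoToSubgraph_coe g, RelIso.apply_symm_apply, hi, isoToSubgraph_coe]

lemma labelled_eq [Fintype V] [Fintype W] :
    G.labelledCopyCount H = G.copyCount H * Nat.card (H ≃g H) := by
  classical
  have hfin : Finite (H ≃g H) := by
    apply Finite.of_injective (fun s : H ≃g H => (s.toEquiv : Equiv.Perm W))
    intro a b hab
    ext w
    exact congrArg (fun e : Equiv.Perm W => e w) hab
  have := Fintype.ofFinite (H ≃g H)
  rw [copyCount_eq_card_image_copyToSubgraph, labelledCopyCount, Nat.card_eq_fintype_card,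
    ← Finset.card_univ]
  rw [Finset.card_eq_sum_card_image (Copy.toSubgraph (A := H) (B := G))
    (Finset.univ : Finset (H.Copy G))]
  rw [Finset.sum_const_nat]
  intro A hA
  rw [Finset.mem_image] at hA
  obtain ⟨g, -, rfl⟩ := hA
  symm
  rw [← Finset.card_univ]
  refine Finset.card_bij (fun s _ => g.comp s.toCopy) ?_ ?_ ?_
  · intro s _
    rw [Finset.mem_filter]
    exact ⟨Finset.mem_univ _, comp_toSubgraph g s⟩
  · intro s _ t _ hst
    ext w
    have : g (s w) = g (t w) := congrArg (fun c : Copy H G => c w) hst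
    exact g.injective this
  · intro f hf
    rw [Finset.mem_filter] at hf
    obtain ⟨s, hs⟩ := exists_perm_of_toSubgraph_eq f g hf.2
    exact ⟨s, Finset.mem_univ _, hs.symm⟩

end labelled

/-! Part 2: automorphisms -/

/-- The Y-shaped tree on 5 vertices: edges `01`, `02`, `03`, `34` (vertex 0 of degree 3, vertex 3 of
degree 2). -/
def yTree : SimpleGraph (Fin 5) := fromEdgeSet {s(0, 1), s(0, 2), s(0, 3), s(3, 4)}

instance : DecidableRel yTree.Adj := by
  unfold yTree; infer_instance

instance : DecidableRel (pathGraph 5).Adj := fun _ _ => decidable_of_iff _ pathGraph_adj.symm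

lemma card_aut {n : ℕ} (H : SimpleGraph (Fin n)) [DecidableRel H.Adj] :
    Nat.card (H ≃g H) =
      (Finset.univ.filter
        (fun s : Equiv.Perm (Fin n) => ∀ a b, H.Adj (s a) (s b) ↔ H.Adj a b)).card := by
  rw [← Fintype.card_subtype, ← Nat.card_eq_fintype_card]
  refine Nat.card_congr ⟨fun s => ⟨s.toEquiv, fun a b => s.map_rel_iff⟩,
    fun s => ⟨s.1, fun {a b} => s.2 a b⟩, fun s => rfl, fun s => rfl⟩

lemma card_aut_y : Nat.card (yTree ≃g yTree) = 2 := by
  rw [card_aut]
  decide +kernel

lemma card_aut_path : Nat.card (pathGraph 5 ≃g pathGraph 5) = 2 := by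
  rw [card_aut]
  decide +kernel

lemma card_aut_star : Nat.card (starGraph (0 : Fin 5) ≃g starGraph (0 : Fin 5)) = 24 := by
  rw [card_aut]
  decide +kernel

/-! Part 3: counting labelled copies -/

section general

variable {V W β : Type*} [Fintype V] [Fintype W] {G : SimpleGraph V} {H : SimpleGraph W}

lemma labelled_le (S : Finset β) (F : Copy H G → β) (hF : ∀ f, F f ∈ S)
    (hinj : Function.Injective F) : G.labelledCopyCount H ≤ S.card := by
  classical
  rw [labelledCopyCount, ← Finset.card_univ]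
  exact Finset.card_le_card_of_injOn F (fun f _ => hF f) (hinj.injOn)

lemma le_labelled (S : Finset β) (F : ∀ p ∈ S, Copy H G)
    (hinj : ∀ p hp q hq, F p hp = F q hq → p = q) : S.card ≤ G.labelledCopyCount H := by
  classical
  rw [labelledCopyCount, ← Fintype.card_coe]
  refine Fintype.card_le_of_injective (fun p : S => F p.1 p.2) ?_
  intro p q hpq
  exact Subtype.ext (hinj _ _ _ _ hpq)

end general

section count

variable {V : Type*} [Fintype V] [DecidableEq V] (T : SimpleGraph V) [DecidableRel T.Adj]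

/-- index set for the labelled Y-trees -/
def ySet : Finset (Σ _ : V, Σ _ : V, (V × V) × V) :=
  (Finset.univ : Finset V).sigma (fun v => (T.neighborFinset v).sigma (fun c =>
        (((T.neighborFinset v).erase c).offDiag) ×ˢ ((T.neighborFinset c).erase v)))

lemma card_ySet : (ySet T).card = ∑ v, ∑ c ∈ T.neighborFinset v,
      ((((T.neighborFinset v).erase c).offDiag).card * ((T.neighborFinset c).erase v).card) := by
  unfold ySet
  rw [Finset.card_sigma]
  refine Finset.sum_congr rfl (fun v _ => ?_)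
  rw [Finset.card_sigma]
  refine Finset.sum_congr rfl (fun c _ => ?_)
  rw [Finset.card_product]

lemma y_le : T.labelledCopyCount yTree ≤
    ∑ v, ∑ c ∈ T.neighborFinset v,
      ((((T.neighborFinset v).erase c).offDiag).card * ((T.neighborFinset c).erase v).card) := by
  rw [← card_ySet]
  refine labelled_le (ySet T) (fun f => ⟨f 0, ⟨f 3, ((f 1, f 2), f 4)⟩⟩) ?_ ?_
  · intro f
    have h01 : T.Adj (f 0) (f 1) := f.toHom.map_adj (by decide : yTree.Adj 0 1)
    have h02 : T.Adj (f 0) (f 2) := f.toHom.map_adj (by decide : yTree.Adj 0 2)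
    have h03 : T.Adj (f 0) (f 3) := f.toHom.map_adj (by decide : yTree.Adj 0 3)
    have h34 : T.Adj (f 3) (f 4) := f.toHom.map_adj (by decide : yTree.Adj 3 4)
    have h12 : f 1 ≠ f 2 := fun h => absurd (f.injective h) (by decide)
    have h13 : f 1 ≠ f 3 := fun h => absurd (f.injective h) (by decide)
    have h23 : f 2 ≠ f 3 := fun h => absurd (f.injective h) (by decide)
    have h40 : f 4 ≠ f 0 := fun h => absurd (f.injective h) (by decide)
    simp only [ySet, Finset.mem_sigma, Finset.mem_univ, true_and,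
      Finset.mem_product, Finset.mem_offDiag, Finset.mem_erase,
      SimpleGraph.mem_neighborFinset]
    exact ⟨h03, ⟨⟨h13, h01⟩, ⟨h23, h02⟩, h12⟩, h40, h34⟩
  · intro f g hfg
    simp only [Sigma.mk.injEq, heq_eq_eq, Prod.mk.injEq] at hfg
    obtain ⟨h0, h3, ⟨h1, h2⟩, h4⟩ := hfg
    ext i
    fin_cases i
    · exact h0
    · exact h1
    · exact h2
    · exact h3
    · exact h4

lemma star_ge : ∑ v, (T.degree v).descFactorial 4 ≤
    T.labelledCopyCount (starGraph (0 : Fin 5)) := by
  have hcard : ∑ v, (T.degree v).descFactorial 4 =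
      (Finset.univ : Finset (Σ v : V, (Fin 4 ↪ T.neighborFinset v))).card := by
    rw [Finset.card_univ, Fintype.card_sigma]
    refine Finset.sum_congr rfl (fun v _ => ?_)
    rw [Fintype.card_embedding_eq, Fintype.card_fin, Fintype.card_coe, card_neighborFinset_eq_degree]
  rw [hcard]
  have hmk : ∀ (p : Σ v : V, (Fin 4 ↪ T.neighborFinset v)), ∃ f : Copy (starGraph (0 : Fin 5)) T,
      f 0 = p.1 ∧ ∀ i : Fin 4, f i.succ = (p.2 i : V) := by
    rintro ⟨v, e⟩
    have hadj : ∀ i, T.Adj v (e i : V) := fun i => (mem_neighborFinset _ _ _).1 (e i).2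
    have hinj : Function.Injective (Fin.cons v (fun i => (e i : V)) : Fin 5 → V) := by
      rw [Fin.cons_injective_iff]
      refine ⟨?_, fun i j hij => e.injective (Subtype.ext hij)⟩
      rintro ⟨i, hi⟩
      exact (hadj i).ne hi.symm
    refine ⟨⟨⟨Fin.cons v (fun i => (e i : V)), ?_⟩, hinj⟩, rfl, fun i => rfl⟩
    intro a b hab
    rw [starGraph_adj] at hab
    obtain ⟨hne, h | h⟩ := hab
    · subst h
      obtain ⟨j, rfl⟩ := Fin.exists_succ_eq.2 (Ne.symm hne)
      exact hadj j
    · subst h
      obtain ⟨j, rfl⟩ := Fin.exists_succ_eq.2 hne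
      exact (hadj j).symm
  choose F hF0 hFs using hmk
  refine le_labelled _ (fun p _ => F p) ?_
  rintro ⟨v, e⟩ - ⟨w, e'⟩ - hpq
  have h0 : v = w := by
    have h1 : (F ⟨v, e⟩) 0 = v := hF0 ⟨v, e⟩
    have h2 : (F ⟨w, e'⟩) 0 = w := hF0 ⟨w, e'⟩
    rw [← h1, ← h2, hpq]
  subst h0
  congr 1
  ext i
  have h1 : (F ⟨v, e⟩) i.succ = (e i : V) := hFs ⟨v, e⟩ i
  have h2 : (F ⟨v, e'⟩) i.succ = (e' i : V) := hFs ⟨v, e'⟩ i
  rw [← h1, ← h2, hpq]

/-- index set for the labelled paths -/
def pSet : Finset (Σ _ : V, Σ _ : V × V, V × V) :=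
  (Finset.univ : Finset V).sigma (fun v => ((T.neighborFinset v).offDiag).sigma (fun p =>
        ((T.neighborFinset p.1).erase v) ×ˢ ((T.neighborFinset p.2).erase v)))

lemma card_pSet : (pSet T).card = ∑ v, ∑ p ∈ (T.neighborFinset v).offDiag,
      (((T.neighborFinset p.1).erase v).card * ((T.neighborFinset p.2).erase v).card) := by
  unfold pSet
  rw [Finset.card_sigma]
  refine Finset.sum_congr rfl (fun v _ => ?_)
  rw [Finset.card_sigma]
  refine Finset.sum_congr rfl (fun c _ => ?_)
  rw [Finset.card_product]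

omit [Fintype V] [DecidableEq V] in
lemma path_inj {a b v d e : V} (h : [a, b, v, d, e].Nodup) :
    Function.Injective (![a, b, v, d, e] : Fin 5 → V) := by
  have := List.nodup_iff_injective_get.1 h
  intro i j hij
  apply this
  fin_cases i <;> fin_cases j <;> first | rfl | exact hij

lemma path_ge (hT : T.IsAcyclic) : ∑ v, ∑ p ∈ (T.neighborFinset v).offDiag,
      (((T.neighborFinset p.1).erase v).card * ((T.neighborFinset p.2).erase v).card) ≤
    T.labelledCopyCount (pathGraph 5) := by
  have htri : ∀ a b c : V, T.Adj a b → T.Adj b c → T.Adj c a → False := by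
    intro a b c hab hbc hca
    refine hT (Walk.cons hab (Walk.cons hbc (Walk.cons hca Walk.nil))) ?_
    rw [Walk.cons_isCycle_iff]
    simp [hab.ne, hbc.ne, hca.ne, hab.ne.symm, hca.ne.symm]
  have hquad : ∀ a b c d : V, T.Adj a b → T.Adj b c → T.Adj c d → T.Adj d a → a ≠ c → b ≠ d →
      False := by
    intro a b c d hab hbc hcd hda hac hbd
    refine hT (Walk.cons hab (Walk.cons hbc (Walk.cons hcd (Walk.cons hda Walk.nil)))) ?_
    rw [Walk.cons_isCycle_iff]
    simp [hab.ne, hbc.ne, hcd.ne, hda.ne, hab.ne.symm, hda.ne.symm,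
      hac, hac.symm, hbd]
  rw [← card_pSet]
  have hmk : ∀ p ∈ pSet T, ∃ f : Copy (pathGraph 5) T,
      f 0 = p.2.2.1 ∧ f 1 = p.2.1.1 ∧ f 2 = p.1 ∧ f 3 = p.2.1.2 ∧ f 4 = p.2.2.2 := by
    rintro ⟨v, ⟨b, d⟩, ⟨a, e⟩⟩ hp
    simp only [pSet, Finset.mem_sigma, Finset.mem_univ, true_and, Finset.mem_product,
      Finset.mem_offDiag, Finset.mem_erase, SimpleGraph.mem_neighborFinset] at hp
    obtain ⟨⟨hvb, hvd, hbd⟩, ⟨hav, hba⟩, hev, hde⟩ := hp
    have hab : a ≠ b := hba.ne.symm
    have had : a ≠ d := by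
      rintro rfl
      exact htri v b a hvb hba hvd.symm
    have hae : a ≠ e := by
      rintro rfl
      exact hquad v b a d hvb hba hde.symm hvd.symm hav.symm hbd
    have hbe : b ≠ e := by
      rintro rfl
      exact htri v d b hvd hde hvb.symm
    have hnd : [a, b, v, d, e].Nodup := by
      simp [hab, hav, had, hae, hvb.ne.symm, hbd, hbe, hvd.ne, hev.symm, hde.ne]
    refine ⟨⟨⟨![a, b, v, d, e], ?_⟩, path_inj hnd⟩, rfl, rfl, rfl, rfl, rfl⟩
    have hstep : ∀ i : Fin 5, ∀ j : Fin 5, i.val + 1 = j.val →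
        T.Adj ((![a, b, v, d, e] : Fin 5 → V) i) ((![a, b, v, d, e] : Fin 5 → V) j) := by
      intro i j hij
      fin_cases i <;> fin_cases j <;>
        first
        | exact absurd hij (by decide)
        | exact hba.symm
        | exact hvb.symm
        | exact hvd
        | exact hde
    intro i j hij
    rw [pathGraph_adj] at hij
    rcases hij with hij | hij
    · exact hstep i j hij
    · exact (hstep j i hij).symm
  choose F h0 h1 h2 h3 h4 using hmk
  refine le_labelled _ F ?_
  rintro ⟨v, ⟨b, d⟩, ⟨a, e⟩⟩ hp ⟨v', ⟨b', d'⟩, ⟨a', e'⟩⟩ hq hpq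
  have e0 : a = a' := by
    have := h0 _ hp
    rw [hpq, h0 _ hq] at this
    exact this.symm
  have e1 : b = b' := by
    have := h1 _ hp
    rw [hpq, h1 _ hq] at this
    exact this.symm
  have e2 : v = v' := by
    have := h2 _ hp
    rw [hpq, h2 _ hq] at this
    exact this.symm
  have e3 : d = d' := by
    have := h3 _ hp
    rw [hpq, h3 _ hq] at this
    exact this.symm
  have e4 : e = e' := by
    have := h4 _ hp
    rw [hpq, h4 _ hq] at this
    exact this.symm
  subst e0 e1 e2 e3 e4
  rfl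

end count

end Pool.Agent.N428.TreeCounts
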