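import Mathlib

namespace Pool.Agent.N428.TreeLocal

open Finset

/-- the potential for `a < b` -/
def hh (a b : ℤ) : ℤ :=
  if a = 0 then (if b = 1 then 2 else 6)
  else if a = 1 then 2
  else if a = 2 then 6 - 2 * b
  else if a = 3 then 22 - 6 * b
  else -(a * (a - 1) * (b - a))

/-- antisymmetric potential -/
def pot (a b : ℤ) : ℤ := if a < b then hh a b else if b < a then - hh b a else 0

lemma pot_antisymm (a b : ℤ) : pot a b = - pot b a := by
  unfold pot
  rcases lt_trichotomy a b with h | h | h
  · rw [if_pos h, if_neg (not_lt.2 h.le), if_pos h]; ring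
  · subst h; simp
  · rw [if_neg (not_lt.2 h.le), if_pos h, if_pos h]

lemma sum_offDiag {ι : Type*} [DecidableEq ι] (N : Finset ι) (f : ι → ℤ) :
    ∑ p ∈ N.offDiag, f p.1 * f p.2 = (∑ i ∈ N, f i) ^ 2 - ∑ i ∈ N, (f i) ^ 2 := by
  have h1 : ∑ p ∈ N ×ˢ N, f p.1 * f p.2 = (∑ i ∈ N, f i) ^ 2 := by
    rw [sq, Finset.sum_mul_sum, Finset.sum_product]
  have h2 : ∑ p ∈ N.diag, f p.1 * f p.2 = ∑ i ∈ N, (f i) ^ 2 := by
    rw [Finset.sum_diag]
    exact Finset.sum_congr rfl (fun i _ => (sq (f i)).symm)
  rw [← h1, ← h2, ← Finset.diag_union_offDiag, Finset.sum_union (Finset.disjoint_diag_offDiag N)]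
  ring

lemma capped {ι : Type*} [DecidableEq ι] (N : Finset ι) (y m : ι → ℤ) (x A B : ℤ)
    (hN : (N.card : ℤ) = x + 1)
    (hm0 : ∀ i ∈ N, 0 ≤ m i) (hmy : ∀ i ∈ N, m i ≤ y i)
    (hg : ∀ i ∈ N, 4 * (x * (x - 1)) * y i + 4 * pot x (y i) + 4 * (m i) ^ 2 ≤ A * m i + B) :
    4 * (x * (x - 1)) * (∑ i ∈ N, y i) - 3 * ((x + 1) * x * (x - 1) * (x - 2))
      - 4 * (∑ p ∈ N.offDiag, y p.1 * y p.2) + 4 * (∑ i ∈ N, pot x (y i)) + 24 * (x - 1) ≤
    A * (∑ i ∈ N, m i) + B * (x + 1) - 4 * (∑ i ∈ N, m i) ^ 2
      - 3 * ((x + 1) * x * (x - 1) * (x - 2)) + 24 * (x - 1) := by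
  have h1 : ∑ p ∈ N.offDiag, m p.1 * m p.2 ≤ ∑ p ∈ N.offDiag, y p.1 * y p.2 := by
    apply Finset.sum_le_sum
    intro p hp
    rw [Finset.mem_offDiag] at hp
    exact mul_le_mul (hmy _ hp.1) (hmy _ hp.2.1) (hm0 _ hp.2.1)
      (le_trans (hm0 _ hp.1) (hmy _ hp.1))
  rw [sum_offDiag] at h1
  have h2 := Finset.sum_le_sum hg
  rw [Finset.sum_add_distrib, Finset.sum_add_distrib, Finset.sum_add_distrib, Finset.sum_const,
    ← Finset.mul_sum, ← Finset.mul_sum, ← Finset.mul_sum, ← Finset.mul_sum, nsmul_eq_mul, hN] at h2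
  linarith

lemma int_quad (s a : ℤ) : 0 ≤ (s - a) * (s - (a + 1)) := by
  rcases le_or_gt s a with h | h
  · nlinarith
  · have : a + 1 ≤ s := h
    nlinarith

lemma local_ineq {ι : Type*} [DecidableEq ι] (N : Finset ι) (y : ι → ℤ) (x : ℤ)
    (hN : (N.card : ℤ) = x + 1) (hy : ∀ i ∈ N, 0 ≤ y i) :
    4 * (x * (x - 1)) * (∑ i ∈ N, y i) - 3 * ((x + 1) * x * (x - 1) * (x - 2))
      - 4 * (∑ p ∈ N.offDiag, y p.1 * y p.2) + 4 * (∑ i ∈ N, pot x (y i)) + 24 * (x - 1) ≤ 0 := by
  have hx : -1 ≤ x := by
    have : (0 : ℤ) ≤ N.card := Nat.cast_nonneg _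
    omega
  rcases (show x = -1 ∨ x = 0 ∨ x = 1 ∨ x = 2 ∨ x = 3 ∨ 4 ≤ x by omega) with
    h | h | h | h | h | h
  · subst h
    have : N = ∅ := by
      rw [← Finset.card_eq_zero]
      exact_mod_cast (by simpa using hN : (N.card : ℤ) = 0)
    subst this
    simp
  · subst h
    refine le_trans (capped N y (fun i => min (y i) 2) 0 20 0 hN
      (fun i hi => le_min (hy i hi) (by norm_num)) (fun i _ => min_le_left _ _) ?_) ?_
    · intro i hi
      have h0 := hy i hi
      rcases (show y i = 0 ∨ y i = 1 ∨ 2 ≤ y i by omega) with h | h | h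
      · rw [h]; decide
      · rw [h]; decide
      · rw [min_eq_right h]
        have : pot 0 (y i) = 6 := by
          unfold pot hh
          rw [if_pos (by omega), if_pos rfl, if_neg (by omega)]
        rw [this]; norm_num
    · have := int_quad (∑ i ∈ N, min (y i) 2) 2
      nlinarith
  · subst h
    refine le_trans (capped N y (fun i => min (y i) 2) 1 16 (-8) hN
      (fun i hi => le_min (hy i hi) (by norm_num)) (fun i _ => min_le_left _ _) ?_) ?_
    · intro i hi
      have h0 := hy i hi
      rcases (show y i = 0 ∨ y i = 1 ∨ 2 ≤ y i by omega) with h | h | h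
      · rw [h]; decide
      · rw [h]; decide
      · rw [min_eq_right h]
        have : pot 1 (y i) = 2 := by
          unfold pot hh
          rw [if_pos (by omega), if_neg (by norm_num), if_pos rfl]
        rw [this]; norm_num
    · nlinarith [sq_nonneg ((∑ i ∈ N, min (y i) 2) - 2)]
  · subst h
    refine le_trans (capped N y (fun i => min (y i) 3) 2 28 (-24) hN
      (fun i hi => le_min (hy i hi) (by norm_num)) (fun i _ => min_le_left _ _) ?_) ?_
    · intro i hi
      have h0 := hy i hi
      rcases (show y i = 0 ∨ y i = 1 ∨ y i = 2 ∨ 3 ≤ y i by omega) with h | h | h | h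
      · rw [h]; decide
      · rw [h]; decide
      · rw [h]; decide
      · rw [min_eq_right h]
        have : pot 2 (y i) = 6 - 2 * y i := by
          unfold pot hh
          rw [if_pos (by omega), if_neg (by norm_num), if_neg (by norm_num), if_pos rfl]
        rw [this]; nlinarith
    · have := int_quad (∑ i ∈ N, min (y i) 3) 3
      nlinarith
  · subst h
    refine le_trans (capped N y (fun i => min (y i) 4) 3 44 (-24) hN
      (fun i hi => le_min (hy i hi) (by norm_num)) (fun i _ => min_le_left _ _) ?_) ?_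
    · intro i hi
      have h0 := hy i hi
      rcases (show y i = 0 ∨ y i = 1 ∨ y i = 2 ∨ y i = 3 ∨ 4 ≤ y i by omega) with
        h | h | h | h | h
      · rw [h]; decide
      · rw [h]; decide
      · rw [h]; decide
      · rw [h]; decide
      · rw [min_eq_right h]
        have : pot 3 (y i) = 22 - 6 * y i := by
          unfold pot hh
          rw [if_pos (by omega), if_neg (by norm_num), if_neg (by norm_num),
            if_neg (by norm_num), if_pos rfl]
        rw [this]; nlinarith
    · have := int_quad (∑ i ∈ N, min (y i) 4) 5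
      nlinarith
  · refine le_trans (capped N y (fun i => min (y i) x) x (5 * x ^ 2 - 4 * x + 4) 0 hN
      (fun i hi => le_min (hy i hi) (by omega)) (fun i _ => min_le_left _ _) ?_) ?_
    · intro i hi
      have h0 := hy i hi
      generalize y i = z at h0
      rcases (show z = 0 ∨ z = 1 ∨ z = 2 ∨ z = 3 ∨ (4 ≤ z ∧ z < x) ∨ z = x ∨ x < z by omega) with
        h' | h' | h' | h' | h' | h' | h'
      · subst h'
        rw [min_eq_left (by omega)]
        have : pot x 0 = -6 := by
          unfold pot hh
          rw [if_neg (by omega), if_pos (by omega), if_pos rfl, if_neg (by omega)]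
        rw [this]; norm_num
      · subst h'
        rw [min_eq_left (by omega)]
        have : pot x 1 = -2 := by
          unfold pot hh
          rw [if_neg (by omega), if_pos (by omega), if_neg (by norm_num), if_pos rfl]
        rw [this]; nlinarith
      · subst h'
        rw [min_eq_left (by omega)]
        have : pot x 2 = -(6 - 2 * x) := by
          unfold pot hh
          rw [if_neg (by omega), if_pos (by omega), if_neg (by norm_num), if_neg (by norm_num),
            if_pos rfl]
        rw [this]; nlinarith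
      · subst h'
        rw [min_eq_left (by omega)]
        have : pot x 3 = -(22 - 6 * x) := by
          unfold pot hh
          rw [if_neg (by omega), if_pos (by omega), if_neg (by norm_num), if_neg (by norm_num),
            if_neg (by norm_num), if_pos rfl]
        rw [this]; nlinarith [sq_nonneg (x - 4)]
      · rw [min_eq_left (by omega)]
        have : pot x z = z * (z - 1) * (x - z) := by
          unfold pot hh
          rw [if_neg (by omega), if_pos (by omega), if_neg (by omega), if_neg (by omega),
            if_neg (by omega), if_neg (by omega)]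
          ring
        rw [this]
        have key : 0 ≤ z * (2 * z - (x + 2)) ^ 2 := mul_nonneg h0 (sq_nonneg _)
        nlinarith
      · subst h'
        rw [min_eq_left (le_refl _)]
        have : pot z z = 0 := by
          unfold pot
          rw [if_neg (lt_irrefl _), if_neg (lt_irrefl _)]
        rw [this]
        have key : 0 ≤ z * (z - 2) ^ 2 := mul_nonneg h0 (sq_nonneg _)
        nlinarith
      · rw [min_eq_right (by omega)]
        have : pot x z = -(x * (x - 1) * (z - x)) := by
          unfold pot hh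
          rw [if_pos h', if_neg (by omega), if_neg (by omega),
            if_neg (by omega), if_neg (by omega)]
        rw [this]
        have key : 0 ≤ x * (x - 2) ^ 2 := mul_nonneg (by omega) (sq_nonneg _)
        nlinarith
    · generalize (∑ i ∈ N, min (y i) x) = s
      rcases (show x = 4 ∨ 5 ≤ x by omega) with h' | h'
      · subst h'
        have := int_quad s 8
        nlinarith
      · have h1 : 0 ≤ (8 * s - (5 * x ^ 2 - 4 * x + 4)) ^ 2 := sq_nonneg _
        have h2 : 0 ≤ 23 * x ^ 4 - 56 * x ^ 3 - 104 * x ^ 2 - 256 * x + 368 := by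
          obtain ⟨k, rfl⟩ : ∃ k, x = k + 5 := ⟨x - 5, by ring⟩
          have hk : 0 ≤ k := by omega
          have : 23 * (k + 5) ^ 4 - 56 * (k + 5) ^ 3 - 104 * (k + 5) ^ 2 - 256 * (k + 5) + 368
            = 23 * k ^ 4 + 404 * k ^ 3 + 2506 * k ^ 2 + 6004 * k + 3863 := by ring
          rw [this]
          positivity
        nlinarith

end Pool.Agent.N428.TreeLocal
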